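import Pool.Agent.TH654.PR.NPPair

set_option autoImplicit false

/-!
# Relative to a random oracle no disjoint `NP` pair is hard even for `UP ∩ coUP`

Polynomial time is Mathlib's `Turing.TM2ComputableInPolyTime`; the oracle classes are those of
`Pool.Agent.H628R3.RO.Defs`.

For almost every oracle `A` and every disjoint `NP` pair `(K₀, K₁)` relative to `A` there is a
language `L` in `UP ∩ coUP` relative to `A` such that the complementary pair `(L, Lᶜ)` does not
reduce to `(K₀, K₁)`. So there is no complete disjoint `NP` pair, and no disjoint `NP` pair is
hard for any class of disjoint pairs that contains the pairs `(L, Lᶜ)` with `L` in `UP ∩ coUP`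
(for instance the disjoint `UP` pairs, or the pairs separable in `NP ∩ coNP`).

The proof uses the random oracle argument of `Pool.Agent.H673R3.UC` (helpers 583, 628 and 673 of
earlier rounds): an instance is a pair of halves of a block of the random oracle together with
certificates that all other pairs of the block have at least two hits; the pair of the instance has
exactly one hit and the language asks in which half. If a reduction were correct at every block,
then at a block where one pair has exactly two hits, one in each half, and the others at least two,
the image of the instance would be in `K₀` and in `K₁`.
-/

namespace Pool.Agent.Results.MP_b9add9_lc.RandomOracle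

open Pool.Agent.H628R3.RO

/-- For almost every oracle `A`: for every disjoint `NP` pair `(K₀, K₁)` relative to `A` there is a
language `L` such that `L` and its complement are in `UP` relative to `A`, and the pair `(L, Lᶜ)`
does not reduce to `(K₀, K₁)` by a function computable in polynomial time relative to `A`. -/
theorem result : ∀ᵐ A ∂randomOracle, ∀ K₀ K₁ : Set (List Bool), IsPair (IsNP A) K₀ K₁ →
    ∃ L : Set (List Bool), IsUP A L ∧ IsUP A Lᶜ ∧ ¬ RedPair A L Lᶜ K₀ K₁ :=
  Pool.Agent.TH654.PR.main_pair

end Pool.Agent.Results.MP_b9add9_lc.RandomOracle
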