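import Pool.Agent.TH672.SD.Thr

set_option autoImplicit false

/-!
# Every oracle: very few strings destroy all complete disjoint `NP` pairs

The construction is in the library `Pool.Agent.TH672.SD`; it uses the libraries of the starting
files on oracle algorithms (`Pool.Agent.H628R3.RO`) and on the join of oracles
(`Pool.Agent.W900.SP`).
-/

namespace Pool.Agent.Results.MP_b9add9_lc.SparseDestruction

open Filter Pool.Agent.H628R3.RO Pool.Agent.W900.SP Pool.Agent.TH672.SD
open Pool.Agent.NPC (pairBits)
open Pool.Agent.W900.SP (join)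

/-- `T` has at most `g n` strings of length at most `n`, for all `n`. -/
def Few (g : ℕ → ℕ) (T : Oracle) : Prop :=
  ∀ n, {q | T q = true ∧ q.length ≤ n}.Finite ∧ {q | T q = true ∧ q.length ≤ n}.ncard ≤ g n

/-- The input `x` together with a pad of length `2 ^ (|x| / k)`: with this input an algorithm that
is fast in the length of its input may run for a time polynomial in `2 ^ (|x| / k)`. -/
def padded (k : ℕ) (x : List Bool) : List Bool :=
  pairBits x (List.replicate (2 ^ (x.length / k)) true)

/-- Relative to `A` some disjoint `NP` pair is complete for the disjoint `NP` pairs. -/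
def HasComplete (A : Oracle) : Prop :=
  ∃ K₀ K₁ : Set (List Bool), IsPair (IsNP A) K₀ K₁ ∧
    ∀ L₀ L₁, IsPair (IsNP A) L₀ L₁ → RedPair A L₀ L₁ K₀ K₁

/-- Relative to `A` no disjoint `NP` pair `(K₀, K₁)` is hard for `UP ∩ coUP`, even for Turing
reductions in time `2 ^ o(n)`: there is a language `L` in `UP ∩ coUP` such that every algorithm `M`
which may ask `A` and a set `S` that separates `K₀` from `K₁`, and which runs in time polynomial in
`2 ^ (n / k)`, `k` large, fails to decide `L` for some such set `S`, on inputs of arbitrarily large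
length. -/
def NoHard (A : Oracle) : Prop := ∀ K₀ K₁, IsPair (IsNP A) K₀ K₁ →
  ∃ L, IsUP A L ∧ IsUP A Lᶜ ∧ (∀ M : Alg, ∃ k₀, ∀ k ≥ k₀, ∀ N, ∃ S : Oracle,
    (∀ z ∈ K₀, S z = true) ∧ (∀ z ∈ K₁, S z = false) ∧ ∃ x : List Bool, N ≤ x.length ∧
      ¬ (M.out (join A S) (padded k x) = some [true] ↔ x ∈ L)) ∧ ¬ RedPair A L Lᶜ K₀ K₁

/-- For every oracle `O` and every function `g`: if `g` tends to infinity, however slowly, then
there is a second oracle `T` with at most `g n` strings of length at most `n`, for all `n`, such
that relative to `join O T` there is no complete disjoint `NP` pair, in the strong sense of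
`NoHard`; and if `g` does not tend to infinity then no second oracle `T` with at most `g n` strings
of length at most `n` changes the answer to the question whether there is a complete disjoint
`NP` pair. -/
theorem result (O : Oracle) (g : ℕ → ℕ) :
    (Tendsto g atTop atTop → ∃ T : Oracle, Few g T ∧ NoHard (join O T) ∧
      ¬ HasComplete (join O T)) ∧
    (¬ Tendsto g atTop atTop → ∀ T : Oracle, Few g T →
      (HasComplete (join O T) ↔ HasComplete O)) := by
  refine threshold (X := HasComplete) (Y := NoHard) ?_ ?_ ?_ O g
  · intro A A' h hA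
    simpa only [HasComplete, IsPair, IsNP, RedPair, h] using hA
  · rintro A hA ⟨K₀, K₁, hK, hred⟩
    obtain ⟨L, h1, h2, _, h4⟩ := hA K₀ K₁ hK
    exact h4 (hred L Lᶜ ⟨IsUP.isNP h1, IsUP.isNP h2, fun x hx => hx.2 hx.1⟩)
  · intro O g hg
    obtain ⟨T, h1, h2, _⟩ := main O g hg
    exact ⟨T, h1, h2⟩

end Pool.Agent.Results.MP_b9add9_lc.SparseDestruction
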