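import Pool.Agent.W900.SQ.Fin

set_option autoImplicit false

/-!
# Very sparse additional oracles: a complete disjoint `NP` pair

This file states a theorem of the library `Pool.Agent.W900.SQ` of the starting files (helper900; it
builds on the libraries of helper943 and contributors, of helpers 628, 673, 543, 591, 620, 622, 583
and 908), which no result file stated before.
-/

namespace Pool.Agent.Results.MP_b9add9_lc.SparseRepair

open MeasureTheory Filter Pool.Agent.H628R3.RO Pool.Agent.W900.SP

/-- Relative to `A` some disjoint `NP` pair is complete for the disjoint `NP` pairs. -/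
def HasComplete (A : Oracle) : Prop :=
  ∃ K₀ K₁ : Set (List Bool), IsPair (IsNP A) K₀ K₁ ∧
    ∀ L₀ L₁, IsPair (IsNP A) L₀ L₁ → RedPair A L₀ L₁ K₀ K₁

/-- There is a polynomial-time decidable set `Z` with at most `40 (log log n + 1) ^ 3` strings of
length at most `n` such that: for every oracle `O` and every function `g` that tends to infinity
(however slowly) there is a subset `T` of `Z` with at most `g n` strings of length at most `n`, for
all `n`, such that `HasComplete (join O T)`; for almost every oracle `O` this is wrong for all finite
sets `T` (in particular for the empty set), and relative to `join O T`, for all subsets `T` of `Z`,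
the polynomial hierarchy is infinite even with polynomial advice, `P ≠ UP ∩ coUP`, and there are
exponentially strong one-way functions. -/
theorem result : ∃ Z : Set (List Bool), VerySparse Z ∧
    (∀ (O : Oracle) (g : ℕ → ℕ), Tendsto g atTop atTop → ∃ T : Oracle,
      (∀ q, T q = true → q ∈ Z) ∧
      (∀ n, {q | T q = true ∧ q.length ≤ n}.Finite ∧
        {q | T q = true ∧ q.length ≤ n}.ncard ≤ g n) ∧ HasComplete (join O T)) ∧
    ∀ᵐ O ∂randomOracle,
      (∀ T : Oracle, {q | T q = true}.Finite → ¬ HasComplete (join O T)) ∧
      ∀ T : Oracle, (∀ q, T q = true → q ∈ Z) → Hard (join O T) :=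
  Pool.Agent.W900.SQ.stmt2_dnp

end Pool.Agent.Results.MP_b9add9_lc.SparseRepair
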